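import Mathlib

/-!
# Prime numbers in arithmetic progressions with a prescribed quadratic residue
-/

set_option autoImplicit false

namespace Pool.Agent.K9h36.RT

/-- a number with a prescribed Jacobi symbol modulo an odd prime -/
theorem exists_symbol {q : ℕ} (hq : q.Prime) (hq2 : q ≠ 2) {s : ℤ} (hs : s = 1 ∨ s = -1) :
    ∃ e : ℕ, jacobiSym (e : ℤ) q = s := by
  have : Fact q.Prime := ⟨hq⟩
  rcases hs with rfl | rfl
  · exact ⟨1, by simp⟩
  · obtain ⟨a, ha⟩ := FiniteField.exists_nonsquare (F := ZMod q) (by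
      rw [ZMod.ringChar_zmod_n]
      exact hq2)
    refine ⟨a.val, ?_⟩
    rw [← jacobiSym.legendreSym.to_jacobiSym, legendreSym.eq_neg_one_iff]
    simpa using ha

/-- a prime number in an arithmetic progression, after division by the common divisor, such that a
given number is a square modulo the prime number -/
theorem dir_prime_sq (n0 D : ℤ) (hD : D ≠ 0) (B : ℕ) {q : ℕ} (hq : q.Prime) (hq2 : q ≠ 2)
    (hqD : ¬ (q : ℤ) ∣ D) {E : ℤ} {i : ℕ} {E2 : ℤ} (hE : E = (q : ℤ) ^ (2 * i + 1) * E2)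
    (hqE : ¬ (q : ℤ) ∣ E2) :
    ∃ (g t : ℤ) (ℓ : ℕ), g ≠ 0 ∧ g ∣ n0 ∧ g ∣ D ∧ ℓ.Prime ∧ B < ℓ ∧ n0 + D * t = g * ℓ ∧
      ∃ s : ℤ, (ℓ : ℤ) ∣ s ^ 2 - E := by
  obtain ⟨m, hm0, r', D', hcop, hr, hD'⟩ : ∃ m : ℤ, m ≠ 0 ∧ ∃ r' D' : ℤ,
      IsCoprime r' D' ∧ n0 = m * r' ∧ D = m * D' := by
    have hg : (Int.gcd n0 D : ℤ) ≠ 0 := by
      have : Int.gcd n0 D ≠ 0 := fun h0 => hD (Int.eq_zero_of_gcd_eq_zero_right h0)
      exact_mod_cast this
    obtain ⟨r', hr'⟩ := Int.gcd_dvd_left n0 D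
    obtain ⟨D', hD'⟩ := Int.gcd_dvd_right n0 D
    refine ⟨(Int.gcd n0 D : ℤ), hg, r', D', ?_, hr', hD'⟩
    refine ⟨Int.gcdA n0 D, Int.gcdB n0 D, ?_⟩
    apply mul_left_cancel₀ hg
    have hb := Int.gcd_eq_gcd_ab n0 D
    calc (Int.gcd n0 D : ℤ) * (Int.gcdA n0 D * r' + Int.gcdB n0 D * D')
        = ((Int.gcd n0 D : ℤ) * r') * Int.gcdA n0 D
          + ((Int.gcd n0 D : ℤ) * D') * Int.gcdB n0 D := by ring
      _ = n0 * Int.gcdA n0 D + D * Int.gcdB n0 D := by rw [← hr', ← hD']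
      _ = (Int.gcd n0 D : ℤ) * 1 := by rw [← hb, mul_one]
  have hD'0 : D' ≠ 0 := by
    rintro rfl
    exact hD (by rw [hD', mul_zero])
  have hE20 : E2 ≠ 0 := by
    rintro rfl
    exact hqE (dvd_zero _)
  have hqD' : ¬ (q : ℤ) ∣ D' := fun h => hqD (hD' ▸ h.mul_left m)
  have hodd : Odd q := hq.odd_of_ne_two hq2
  have : Fact q.Prime := ⟨hq⟩
  have : NeZero D'.natAbs := ⟨Int.natAbs_ne_zero.2 hD'0⟩
  have hunit : IsUnit ((r' : ℤ) : ZMod D'.natAbs) := by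
    have h1 : IsCoprime r' ((D'.natAbs : ℕ) : ℤ) :=
      IsCoprime.of_isCoprime_of_dvd_right hcop (Int.natAbs_dvd.2 dvd_rfl)
    exact (ZMod.coe_int_isUnit_iff_isCoprime r' _).2 h1.symm
  -- a first prime number
  obtain ⟨ℓ₀, hℓ₀gt, hℓ₀, hℓ₀s⟩ := Nat.forall_exists_prime_gt_and_eq_mod hunit
    (D'.natAbs + 4 * E2.natAbs + q)
  set N : ℕ := D'.natAbs * (4 * E2.natAbs) with hN
  have hD'p : 0 < D'.natAbs := Int.natAbs_pos.2 hD'0
  have hE2p : 0 < E2.natAbs := Int.natAbs_pos.2 hE20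
  have hN0 : 0 < N := by positivity
  have hcopN : Nat.Coprime ℓ₀ N := by
    refine Nat.Coprime.mul_right ?_ ?_
    · exact (Nat.Prime.coprime_iff_not_dvd hℓ₀).2 (Nat.not_dvd_of_pos_of_lt hD'p (by omega))
    · exact (Nat.Prime.coprime_iff_not_dvd hℓ₀).2
        (Nat.not_dvd_of_pos_of_lt (by omega) (by omega))
  have hqN : ¬ q ∣ N := by
    intro h
    rcases (Nat.Prime.dvd_mul hq).1 h with h | h
    · exact hqD' (Int.natCast_dvd.2 h)
    · rcases (Nat.Prime.dvd_mul hq).1 h with h | h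
      · have h4 : q ∣ 2 ^ 2 := h
        exact hq2 ((Nat.prime_dvd_prime_iff_eq hq Nat.prime_two).1 (hq.dvd_of_dvd_pow h4))
      · exact hqE (Int.natCast_dvd.2 h)
  have hcopqN : Nat.Coprime N q := ((Nat.Prime.coprime_iff_not_dvd hq).2 hqN).symm
  have hodd₀ : Odd ℓ₀ := by
    refine hℓ₀.odd_of_ne_two ?_
    have := hq.two_le
    omega
  -- the signs
  set s1 : ℤ := jacobiSym E2 ℓ₀ with hs1
  have hs1' : s1 = 1 ∨ s1 = -1 := by
    refine jacobiSym.eq_one_or_neg_one ?_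
    show Nat.gcd E2.natAbs (ℓ₀ : ℤ).natAbs = 1
    rw [Int.natAbs_natCast]
    exact ((Nat.Prime.coprime_iff_not_dvd hℓ₀).2
      (Nat.not_dvd_of_pos_of_lt hE2p (by omega))).symm
  set s2 : ℤ := (-1) ^ (q / 2 * (ℓ₀ / 2)) with hs2
  have hs2' : s2 = 1 ∨ s2 = -1 := neg_one_pow_eq_or ℤ _
  obtain ⟨e, he⟩ := exists_symbol hq hq2 (s := s1 * s2) (by
    rcases hs1' with h | h <;> rcases hs2' with h' | h' <;> rw [h, h'] <;> norm_num)
  obtain ⟨z, hz1, hz2⟩ := Nat.chineseRemainder hcopqN ℓ₀ e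
  have hzN : Nat.Coprime z N := by
    have := hz1.gcd_eq
    unfold Nat.Coprime
    rw [this]
    exact hcopN
  have hzq : Nat.Coprime z q := by
    have h1 : ¬ q ∣ e := by
      intro h
      have h0 : jacobiSym (e : ℤ) q = 0 := by
        rw [← jacobiSym.legendreSym.to_jacobiSym, legendreSym.eq_zero_iff]
        have := (ZMod.natCast_eq_zero_iff e q).2 h
        push_cast
        exact this
      rw [h0] at he
      rcases hs1' with h | h <;> rcases hs2' with h' | h' <;> rw [h, h'] at he <;> norm_num at he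
    have h2 := hz2.gcd_eq
    unfold Nat.Coprime
    rw [h2]
    exact ((Nat.Prime.coprime_iff_not_dvd hq).2 h1).symm
  have hNq : NeZero (N * q) := ⟨(Nat.mul_pos hN0 hq.pos).ne'⟩
  have hunit2 : IsUnit ((z : ℕ) : ZMod (N * q)) :=
    (ZMod.isUnit_iff_coprime z (N * q)).2 (Nat.Coprime.mul_right hzN hzq)
  obtain ⟨ℓ, hℓgt, hℓ, hℓs⟩ := Nat.forall_exists_prime_gt_and_eq_mod hunit2
    (B + 2 + E2.natAbs + q)
  have hmod : ℓ ≡ z [MOD N * q] := (ZMod.natCast_eq_natCast_iff _ _ _).1 hℓs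
  have hmodN : ℓ ≡ ℓ₀ [MOD N] := (hmod.of_mul_right q).trans hz1
  have hmodq : ℓ ≡ e [MOD q] := (hmod.of_mul_left N).trans hz2
  have hmodE : ℓ ≡ ℓ₀ [MOD 4 * E2.natAbs] := hmodN.of_mul_left _
  have hmod4 : ℓ ≡ ℓ₀ [MOD 4] := hmodE.of_mul_right _
  have hmodD : ℓ ≡ ℓ₀ [MOD D'.natAbs] := hmodN.of_mul_right _
  have hoddℓ : Odd ℓ := hℓ.odd_of_ne_two (by omega)
  have : Fact ℓ.Prime := ⟨hℓ⟩
  have hJ : jacobiSym E ℓ = 1 := by
    have e1 : jacobiSym E2 ℓ = s1 := by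
      rw [hs1, jacobiSym.mod_right E2 hoddℓ, jacobiSym.mod_right E2 hodd₀]
      congr 1
    have e2 : jacobiSym (q : ℤ) ℓ = s1 := by
      rw [jacobiSym.quadratic_reciprocity hodd hoddℓ]
      have e3 : jacobiSym (ℓ : ℤ) q = s1 * s2 := by
        rw [← he, jacobiSym.mod_left (ℓ : ℤ), jacobiSym.mod_left (e : ℤ)]
        congr 1
        exact_mod_cast hmodq
      have e4 : ((-1) ^ (q / 2 * (ℓ / 2)) : ℤ) = s2 := by
        rw [hs2, pow_mul, pow_mul]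
        have h5 : ℓ % 4 = ℓ₀ % 4 := hmod4
        rcases neg_one_pow_eq_or ℤ (q / 2) with h | h
        · rw [h, one_pow, one_pow]
        · rw [h, neg_one_pow_eq_pow_mod_two, neg_one_pow_eq_pow_mod_two (n := ℓ₀ / 2)]
          congr 1
          omega
      rw [e3, e4]
      rcases hs2' with h' | h' <;> rw [h'] <;> ring
    rw [hE, jacobiSym.mul_left, jacobiSym.pow_left, e1, e2, pow_succ, pow_mul]
    rcases hs1' with h | h <;> rw [h] <;> norm_num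
  have hsq : ∃ s : ℤ, (ℓ : ℤ) ∣ s ^ 2 - E := by
    have hE0 : ((E : ℤ) : ZMod ℓ) ≠ 0 := by
      intro h
      rw [← jacobiSym.legendreSym.to_jacobiSym] at hJ
      rw [(legendreSym.eq_zero_iff ℓ E).2 h] at hJ
      norm_num at hJ
    rw [← jacobiSym.legendreSym.to_jacobiSym, legendreSym.eq_one_iff ℓ hE0] at hJ
    obtain ⟨y, hy⟩ := hJ
    obtain ⟨s, hs⟩ := ZMod.intCast_surjective y
    refine ⟨s, ?_⟩
    rw [← ZMod.intCast_zmod_eq_zero_iff_dvd]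
    push_cast
    rw [hs, hy]
    ring
  obtain ⟨t, ht⟩ : D' ∣ (ℓ : ℤ) - r' := by
    refine (Int.dvd_natAbs.2 dvd_rfl : D' ∣ ((D'.natAbs : ℕ) : ℤ)).trans ?_
    rw [← ZMod.intCast_zmod_eq_zero_iff_dvd]
    push_cast
    have h1 : ((ℓ : ℕ) : ZMod D'.natAbs) = ((ℓ₀ : ℕ) : ZMod D'.natAbs) :=
      (ZMod.natCast_eq_natCast_iff _ _ _).2 hmodD
    rw [h1, hℓ₀s, sub_self]
  refine ⟨m, t, ℓ, hm0, ⟨r', hr⟩, ⟨D', hD'⟩, hℓ, by omega, ?_, hsq⟩
  rw [hr, hD']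
  linear_combination -m * ht

end Pool.Agent.K9h36.RT
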