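import Pool.Agent.K9h38.CF.Iso
import Pool.Agent.K9h36.RT.Prime

/-!
# The values `j² + j + 1` of a binary quadratic form with a vector of square value
(The proof of `Pool.Agent.K9h38.CF.core_iso` is followed; instead of two orthogonal vectors there is only one, and the
prime number is chosen such that one quadratic equation can be solved modulo this prime number.)
-/

set_option autoImplicit false

namespace Pool.Agent.K9h36.RT

open Pool.Agent.N801.CF Pool.Agent.K9h38.CF Finset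

/-- **Values `j² + j + 1`, rank two.** Let the integral quadratic form take the value `k² ≠ 0` at `v1`, let
`y2` be orthogonal to `v1`, let the form be determined by the products with `v1` and `y2`, and suppose
that in the progressions whose difference has no other prime factors than `2 k` there are prime
numbers modulo which `3 f(y2)` is a square. If the form takes
values which are locally primitive norms, for the primes dividing `2 k`, then it takes a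
value `j² + j + 1`. -/
theorem core_two {M : Type*} [AddCommGroup M] (Q : QF M) {v1 y2 : M} {k : ℤ} (hk : k ≠ 0)
    (h1 : Q.f v1 = k ^ 2) (h12 : Q.b v1 y2 = 0) (hy2 : Q.f y2 ≠ 0)
    (hid : ∀ u, 4 * k ^ 2 * Q.f y2 * Q.f u = Q.f y2 * Q.b v1 u ^ 2 + k ^ 2 * Q.b u y2 ^ 2)
    (hsel : ∀ n0 D : ℤ, D ≠ 0 → (∀ p : ℕ, p.Prime → (p : ℤ) ∣ D → (p : ℤ) ∣ 2 * k) → ∀ B : ℕ,
      ∃ (g t : ℤ) (ℓ : ℕ), g ≠ 0 ∧ g ∣ n0 ∧ g ∣ D ∧ ℓ.Prime ∧ B < ℓ ∧ n0 + D * t = g * ℓ ∧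
        ∃ s : ℤ, (ℓ : ℤ) ∣ s ^ 2 - 3 * Q.f y2)
    (hloc : ∀ p : ℕ, p.Prime → p % 3 ≠ 1 → (p : ℤ) ∣ 2 * k → ∃ v, Good p (Q.f v)) :
    ∃ (v : M) (j : ℤ), Q.f v = j ^ 2 + j + 1 := by
  classical
  have h2k : 2 * k ≠ 0 := mul_ne_zero two_ne_zero hk
  set S : Finset ℕ := (2 * k).natAbs.primeFactors with hSdef
  have hSp : ∀ p ∈ S, p.Prime := fun p hp => Nat.prime_of_mem_primeFactors hp
  have hSd : ∀ p ∈ S, (p : ℤ) ∣ 2 * k := fun p hp =>
    Int.natCast_dvd.2 (Nat.dvd_of_mem_primeFactors hp)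
  have hS' : ∀ p : ℕ, p.Prime → (p : ℤ) ∣ 2 * k → p ∈ S := fun p hp h =>
    Nat.mem_primeFactors.2 ⟨hp, Int.natCast_dvd.1 h, Int.natAbs_ne_zero.2 h2k⟩
  -- local data
  have hf0 : Q.f 0 = 0 := by
    have := Q.f_smul 0 0
    simpa using this
  have hdata : ∀ p ∈ S, ∃ V : M, ∀ L, 2 ≤ L → ∃ a b : ℤ, (p : ℤ) ^ L ∣ nm a b - Q.f V ∧
      ¬ (p : ℤ) ∣ b ∧ ¬ (p : ℤ) ^ 2 ∣ 2 * a + b := by
    intro p hp
    by_cases h3 : p % 3 = 1
    · refine ⟨0, fun L _ => ?_⟩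
      rw [hf0]
      exact loc_split (hSp p hp) h3 L
    · obtain ⟨V, hV⟩ := hloc p (hSp p hp) h3 (hSd p hp)
      exact ⟨V, fun L hL => loc_inert (hSp p hp) h3 hV L hL⟩
  choose! V hV using hdata
  -- exponents
  obtain ⟨K, hK⟩ : ∃ K : ℕ, ∀ p ∈ S, ¬ (p : ℤ) ^ K ∣ 2 * k := by
    refine ⟨(2 * k).natAbs, fun p hp hd => ?_⟩
    have h1 := Int.natAbs_dvd_natAbs.2 hd
    rw [Int.natAbs_pow, Int.natAbs_natCast] at h1
    have h2 := Nat.le_of_dvd (Int.natAbs_pos.2 h2k) h1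
    have h4 : (2 * k).natAbs < p ^ (2 * k).natAbs := Nat.lt_pow_self (hSp p hp).one_lt
    omega
  set L := K + 2 with hL
  -- local solutions
  have hsol : ∀ p ∈ S, ∃ (u : M) (r : ℤ), (p : ℤ) ^ L ∣ r ^ 2 - r + 1 - Q.f u ∧
      ¬ (p : ℤ) ^ (K + 1) ∣ Q.b v1 u + k * (2 * r - 1) := by
    intro p hp
    have hpr := hSp p hp
    have hpp := Nat.prime_iff_prime_int.1 hpr
    obtain ⟨a, b, e1, e2, e3⟩ := hV p hp L (by omega)
    obtain ⟨c, d, hcd⟩ : IsCoprime b ((p : ℤ) ^ L) :=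
      (((Prime.coprime_iff_not_dvd hpp).2 e2).symm).pow_right
    have hpc : ¬ (p : ℤ) ∣ c := by
      intro h
      apply hpp.not_isUnit
      refine isUnit_of_dvd_one ?_
      rw [← hcd]
      exact dvd_add (h.mul_right _) ((dvd_pow_self _ (by omega)).mul_left _)
    have hval : (p : ℤ) ^ L ∣ nm (c * a) 1 - c ^ 2 * Q.f (V p) := by
      have : nm (c * a) 1 - c ^ 2 * Q.f (V p) = c ^ 2 * (nm a b - Q.f (V p)) +
          (p : ℤ) ^ L * (d * (c * a + 1 + c * b)) := by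
        unfold nm
        linear_combination (c * a + 1 + c * b) * (-1) * hcd
      rw [this]
      exact dvd_add (e1.mul_left _) (dvd_mul_right _ _)
    have hw : ¬ (p : ℤ) ^ 2 ∣ 2 * (c * a) + 1 := by
      intro h
      apply e3
      have h1 : (p : ℤ) ^ 2 ∣ (2 * a + b) * c := by
        have : (2 * a + b) * c = (2 * (c * a) + 1) - (p : ℤ) ^ L * d := by
          linear_combination hcd
        rw [this]
        exact dvd_sub h ((pow_dvd_pow _ (by omega)).mul_right _)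
      exact hpp.pow_dvd_of_dvd_mul_right 2 hpc h1
    have hmain := not_dvd_mul hpr (hK p hp) hw
    by_contra hcon
    push Not at hcon
    have c1 := hcon (c • V p) (-(c * a)) (by
      rw [Q.f_smul]
      have : (-(c * a)) ^ 2 - -(c * a) + 1 - c ^ 2 * Q.f (V p) =
          nm (c * a) 1 - c ^ 2 * Q.f (V p) := by unfold nm; ring
      rw [this]
      exact hval)
    have c2 := hcon (c • V p) (1 + c * a) (by
      rw [Q.f_smul]
      have : (1 + c * a) ^ 2 - (1 + c * a) + 1 - c ^ 2 * Q.f (V p) =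
          nm (c * a) 1 - c ^ 2 * Q.f (V p) := by unfold nm; ring
      rw [this]
      exact hval)
    apply hmain
    have := dvd_sub c2 c1
    have e : Q.b v1 (c • V p) + k * (2 * (1 + c * a) - 1) -
        (Q.b v1 (c • V p) + k * (2 * -(c * a) - 1)) = 2 * k * (2 * (c * a) + 1) := by ring
    rwa [e] at this
  choose! U R hUR using hsol
  -- simultaneous approximation
  obtain ⟨x1, hx1⟩ := crt S hSp L U
  obtain ⟨r1, hr1⟩ := crt S hSp L R
  set P : ℤ := ∏ p ∈ S, (p : ℤ) ^ L with hP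
  have hP0 : P ≠ 0 := prod_ne_zero_iff.2 fun p hp => pow_ne_zero _ (by
    exact_mod_cast (hSp p hp).ne_zero)
  have hPS : ∀ p ∈ S, (p : ℤ) ^ L ∣ P := fun p hp => dvd_prod_of_mem _ hp
  have hprimeP : ∀ p : ℕ, p.Prime → (p : ℤ) ∣ P → p ∈ S := by
    intro p hp h
    have hpp := Nat.prime_iff_prime_int.1 hp
    obtain ⟨q', hq', hdq⟩ := (Prime.dvd_finsetProd_iff hpp _).1 h
    have h1 := hpp.dvd_of_dvd_pow hdq
    have h2 : p ∣ q' := by exact_mod_cast h1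
    rw [(Nat.prime_dvd_prime_iff_eq hp (hSp q' hq')).1 h2]
    exact hq'
  have hPF : P ∣ r1 ^ 2 - r1 + 1 - Q.f x1 := by
    obtain ⟨y, hy⟩ := div_prod S hSp (fun _ => L) (r1 ^ 2 - r1 + 1 - Q.f x1) (by
      intro p hp
      obtain ⟨z, hz⟩ := hx1 p hp
      obtain ⟨w, hw⟩ := hr1 p hp
      obtain ⟨y, hy⟩ := (hUR p hp).1
      rw [smul_eq_mul] at hw
      refine ⟨y + w * (2 * R p - 1) + (p : ℤ) ^ L * w ^ 2 - Q.b (U p) z - (p : ℤ) ^ L * Q.f z, ?_⟩
      rw [smul_eq_mul, hw, hz, Q.f_add, Q.f_smul, Q.b_smul']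
      linear_combination hy)
    rw [smul_eq_mul] at hy
    exact ⟨y, hy⟩
  set n0 : ℤ := Q.b v1 x1 + k * (2 * r1 - 1) with hn0
  have hn0S : ∀ p ∈ S, ¬ (p : ℤ) ^ (K + 1) ∣ n0 := by
    intro p hp h
    apply (hUR p hp).2
    obtain ⟨z, hz⟩ := hx1 p hp
    obtain ⟨w, hw⟩ := hr1 p hp
    rw [smul_eq_mul] at hw
    have : Q.b v1 (U p) + k * (2 * R p - 1) = n0 - (p : ℤ) ^ L * (Q.b v1 z + 2 * k * w) := by
      rw [hn0, hw, hz, Q.b_add', Q.b_smul']
      ring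
    rw [this]
    exact dvd_sub h ((pow_dvd_pow _ (by omega)).mul_right _)
  have hqD : ∀ q : ℕ, q.Prime → (q : ℤ) ∣ 2 * k * P → (q : ℤ) ∣ 2 * k := by
    intro q hq h
    rcases (Nat.prime_iff_prime_int.1 hq).dvd_or_dvd h with h | h
    · exact h
    · exact hSd q (hprimeP q hq h)
  obtain ⟨g, t, ℓ, hg0, hgn, hgD, hℓ, hℓB, hval, s0, hs0⟩ := hsel n0 (2 * k * P)
    (mul_ne_zero h2k hP0) hqD (2 + P.natAbs + (Q.f y2).natAbs + (2 * k).natAbs)
  have hℓp := Nat.prime_iff_prime_int.1 hℓ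
  have hsmall : ∀ z : ℤ, z ≠ 0 → z.natAbs < ℓ → ¬ (ℓ : ℤ) ∣ z := by
    intro z hz hlt hd
    have h1 := Nat.le_of_dvd (Int.natAbs_pos.2 hz) (Int.natCast_dvd.1 hd)
    omega
  have hℓP := hsmall P hP0 (by omega)
  have hℓ2 := hsmall _ hy2 (by omega)
  have hℓk := hsmall _ h2k (by omega)
  -- `g` divides `P`
  have hgP : g ∣ P := by
    rw [← Int.natAbs_dvd_natAbs, Nat.dvd_iff_prime_pow_dvd_dvd]
    intro p e hp he
    have hgi : ((p : ℤ)) ^ e ∣ g := by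
      have : ((p ^ e : ℕ) : ℤ) ∣ g := Int.natCast_dvd.2 he
      exact_mod_cast this
    by_cases he0 : e = 0
    · rw [he0, pow_zero]
      exact one_dvd _
    have hpg : (p : ℤ) ∣ g := (dvd_pow_self _ he0).trans hgi
    have hpS : p ∈ S := by
      have hpp := Nat.prime_iff_prime_int.1 hp
      rcases hpp.dvd_or_dvd (hpg.trans hgD) with h | h
      · exact hS' p hp h
      · exact hprimeP p hp h
    have heK : e ≤ K := by
      by_contra hcon
      push Not at hcon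
      exact hn0S p hpS (((pow_dvd_pow _ hcon).trans hgi).trans hgn)
    have h1 : (p : ℤ) ^ e ∣ P := (pow_dvd_pow _ (by omega)).trans (hPS p hpS)
    have h2 : ((p ^ e : ℕ) : ℤ) ∣ P := by exact_mod_cast h1
    exact Int.natCast_dvd.1 h2
  -- the correction
  set r : ℤ := r1 + P * t with hr
  -- `b u y2` is to be congruent to `s0` modulo `ℓ`
  obtain ⟨a', b', hab⟩ : IsCoprime (2 * P * Q.f y2) (ℓ : ℤ) := by
    refine ((Prime.coprime_iff_not_dvd hℓp).2 fun h => ?_).symm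
    rcases hℓp.dvd_or_dvd h with h | h
    · rcases hℓp.dvd_or_dvd h with h | h
      · exact hℓk (h.mul_right k)
      · exact hℓP h
    · exact hℓ2 h
  set s2 : ℤ := (s0 - Q.b x1 y2) * a' with hs2
  set u : M := x1 + (P * s2) • y2 with hu
  have hbu : Q.b v1 u = Q.b v1 x1 := by
    rw [hu, Q.b_add', Q.b_smul', h12]
    ring
  have hbu2 : Q.b u y2 = Q.b x1 y2 + P * s2 * (2 * Q.f y2) := by
    rw [hu, Q.b_add, Q.b_smul, Q.b_self]
  have hfu : Q.f u = Q.f x1 + P * s2 * Q.b x1 y2 + P ^ 2 * s2 ^ 2 * Q.f y2 := by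
    rw [hu, Q.f_add, Q.f_smul, Q.b_smul']
    ring
  have hn : Q.b v1 u + k * (2 * r - 1) = g * ℓ := by
    rw [hbu, ← hval, hn0, hr]
    ring
  have hFℓ : (ℓ : ℤ) ∣ r ^ 2 - r + 1 - Q.f u := by
    have e1 : Q.b u y2 = s0 - ℓ * ((s0 - Q.b x1 y2) * b') := by
      rw [hbu2, hs2]
      linear_combination (s0 - Q.b x1 y2) * hab
    obtain ⟨c, hc⟩ := hs0
    have e2 : (ℓ : ℤ) ∣ 4 * k ^ 2 * Q.f y2 * (r ^ 2 - r + 1 - Q.f u) := by
      have e3 : Q.b v1 u = g * ℓ - k * (2 * r - 1) := by linear_combination hn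
      refine ⟨-(Q.f y2) * (g ^ 2 * ℓ - 2 * g * k * (2 * r - 1)) - k ^ 2 * (c -
        2 * s0 * ((s0 - Q.b x1 y2) * b') + ℓ * ((s0 - Q.b x1 y2) * b') ^ 2), ?_⟩
      have e4 := hid u
      rw [e1, e3] at e4
      linear_combination -e4 - k ^ 2 * hc
    rcases hℓp.dvd_or_dvd e2 with h | h
    · exfalso
      rcases hℓp.dvd_or_dvd h with h | h
      · have : (4 * k ^ 2 : ℤ) = (2 * k) ^ 2 := by ring
        rw [this] at h
        exact hℓk (hℓp.dvd_of_dvd_pow h)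
      · exact hℓ2 h
    · exact h
  have hFP : P ∣ r ^ 2 - r + 1 - Q.f u := by
    have : r ^ 2 - r + 1 - Q.f u = (r1 ^ 2 - r1 + 1 - Q.f x1) + P * (t * (2 * r1 - 1) + P * t ^ 2
        - s2 * Q.b x1 y2 - P * s2 ^ 2 * Q.f y2) := by
      rw [hfu, hr]
      ring
    rw [this]
    exact dvd_add hPF (dvd_mul_right _ _)
  have hcop : IsCoprime (ℓ : ℤ) g :=
    (Prime.coprime_iff_not_dvd hℓp).2 fun h => hℓP (h.trans hgP)
  obtain ⟨x, hx⟩ : g * ℓ ∣ r ^ 2 - r + 1 - Q.f u :=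
    hcop.symm.mul_dvd (hgP.trans hFP) hFℓ
  refine ⟨x • v1 + u, k * x - r, ?_⟩
  rw [Q.f_add, Q.f_smul, Q.b_smul, h1]
  linear_combination x * hn - hx

/-- the condition of `core_two` if `3 f(y2)` is a square, or if it is divisible to an odd power by a
prime number which does not divide `2 k` -/
theorem sel {k E : ℤ} (h : IsSquare E ∨ ∃ (q i : ℕ) (E2 : ℤ), q.Prime ∧ ¬ (q : ℤ) ∣ 2 * k ∧
      E = (q : ℤ) ^ (2 * i + 1) * E2 ∧ ¬ (q : ℤ) ∣ E2) (n0 D : ℤ) (hD : D ≠ 0)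
    (hDk : ∀ p : ℕ, p.Prime → (p : ℤ) ∣ D → (p : ℤ) ∣ 2 * k) (B : ℕ) :
    ∃ (g t : ℤ) (ℓ : ℕ), g ≠ 0 ∧ g ∣ n0 ∧ g ∣ D ∧ ℓ.Prime ∧ B < ℓ ∧ n0 + D * t = g * ℓ ∧
      ∃ s : ℤ, (ℓ : ℤ) ∣ s ^ 2 - E := by
  rcases h with ⟨s, hs⟩ | ⟨q, i, E2, hq, hqk, hE, hqE⟩
  · obtain ⟨g, t, ℓ, h1, h2, h3, h4, h5, h6⟩ := dir_prime n0 D hD B
    exact ⟨g, t, ℓ, h1, h2, h3, h4, h5, h6, s, by rw [hs]; ring_nf; exact dvd_zero _⟩
  · have hq2 : q ≠ 2 := by
      rintro rfl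
      exact hqk (dvd_mul_right _ _)
    exact dir_prime_sq n0 D hD B hq hq2 (fun h => hqk (hDk q hq h)) hE hqE

end Pool.Agent.K9h36.RT
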