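import Pool.Agent.K9h36.RT.Rank3

/-!
# Cubic fourfolds with three independent Hodge classes: the geometric part of `value_rank_three`
-/

set_option autoImplicit false

namespace Pool.Agent.K9h36.RT

open Pool.Agent.Y95.Q Pool.Agent.Y95.Q.H4 Pool.Agent.X328.CF Pool.Agent.N801.CF Module

variable {X : CubicFourfold} {H : H4 X}

/-- the orthogonal class, the form in rank three, and the discriminant up to squares -/
theorem geometry (hH : H.IsCohomology) (hr : finrank ℤ H.hodge = 3) {v : Fin 23 → ℤ}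
    (hv : H.IsHodge v) {k : ℤ} (hk : k ≠ 0) (hd : H.disc v = 2 * k ^ 2) :
    ∃ y : H.hodge, (hq hH).f ⟨v, hv⟩ = k ^ 2 ∧ (hq hH).b ⟨v, hv⟩ y = 0 ∧ 0 < (hq hH).f y ∧
      (∀ z : H.hodge, 4 * k ^ 2 * (hq hH).f y * (hq hH).f z =
        (hq hH).f y * (hq hH).b ⟨v, hv⟩ z ^ 2 + k ^ 2 * (hq hH).b z y ^ 2) ∧
      ∀ u w : Fin 23 → ℤ, H.IsHodge u → H.IsHodge w → ∃ s t : ℤ, t ≠ 0 ∧
        (gram H u w ≠ 0 → s ≠ 0) ∧ t ^ 2 * gram H u w = s ^ 2 * (3 * (hq hH).f y) := by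
  obtain ⟨y, hy, ho⟩ := exists_orth (H := H) (k := 2) (by omega) ![H.h, v]
  have hyh : H.ip (y : Fin 23 → ℤ) H.h = 0 := ho 0
  have hyv : H.ip (y : Fin 23 → ℤ) v = 0 := ho 1
  have hD1 : H.disc v ≠ 0 := by
    rw [hd]
    positivity
  have hypos : 0 < H.ip (y : Fin 23 → ℤ) y := hH.pos _ y.2 fun h => hy (Subtype.ext h)
  have hdy := disc_prim hH hyh
  have hhalf := disc_half hH (y : Fin 23 → ℤ)
  have hf : (hq hH).f ⟨v, hv⟩ = k ^ 2 := by
    rw [hq_f]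
    show H.disc v / 2 = k ^ 2
    rw [hd]
    omega
  obtain ⟨c2, hc2⟩ : ∃ c2 : ℤ, (hq hH).f y = c2 := ⟨_, rfl⟩
  have hD2 : H.disc (y : Fin 23 → ℤ) = 2 * c2 := by
    rw [← hc2, hq_f]
    exact hhalf
  have hc2pos : 0 < c2 := by
    rw [hdy] at hD2
    omega
  have hvv : (1 : ℤ) • v = (0 : ℤ) • H.h + (1 : ℤ) • v + (0 : ℤ) • (y : Fin 23 → ℤ) := by simp
  have hyy : (1 : ℤ) • (y : Fin 23 → ℤ) =
      (0 : ℤ) • H.h + (0 : ℤ) • v + (1 : ℤ) • (y : Fin 23 → ℤ) := by simp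
  -- the form is determined by the products with `v` and `y`
  have hid : ∀ z : H.hodge, 4 * k ^ 2 * (hq hH).f y * (hq hH).f z =
      (hq hH).f y * (hq hH).b ⟨v, hv⟩ z ^ 2 + k ^ 2 * (hq hH).b z y ^ 2 := by
    intro z
    obtain ⟨m, a, b, c, hm, hz⟩ := coords hH hr hv hk hd hy hyh hyv z
    have e1 := bb_coords hH hyh hyv hz hz
    have e2 := bb_coords hH hyh hyv hvv hz
    have e3 := bb_coords hH hyh hyv hz hyy
    rw [bb_self, hd, hD2] at e1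
    rw [hd, hD2] at e2 e3
    have e4 : H.disc (z : Fin 23 → ℤ) = 2 * (hq hH).f z := by
      rw [hq_f]
      exact disc_half hH _
    rw [e4] at e1
    have e5 : (hq hH).b ⟨v, hv⟩ z = bb H v z := rfl
    have e6 : (hq hH).b z y = bb H z y := rfl
    rw [e5, e6, hc2]
    apply mul_left_cancel₀ (pow_ne_zero 2 hm)
    linear_combination (2 * k ^ 2 * c2) * e1 - c2 * (m * bb H v z + 2 * k ^ 2 * b) * e2
      - k ^ 2 * (m * bb H z y + 2 * c2 * c) * e3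
  have h12 : (hq hH).b ⟨v, hv⟩ y = 0 := by
    show 3 * H.ip v (y : Fin 23 → ℤ) - H.ip H.h v * H.ip H.h (y : Fin 23 → ℤ) = 0
    rw [hH.comm v (y : Fin 23 → ℤ), hyv, hH.comm H.h (y : Fin 23 → ℤ), hyh]
    ring
  refine ⟨y, hf, h12, by rw [hc2]; exact hc2pos, hid, fun u w hu hw => ?_⟩
  obtain ⟨m, a, b, c, hm, hmu⟩ := coords hH hr hv hk hd hy hyh hyv ⟨u, hu⟩
  obtain ⟨m', a', b', c', hm', hmw⟩ := coords hH hr hv hk hd hy hyh hyv ⟨w, hw⟩
  have hmu' : m • u = a • H.h + b • v + c • (y : Fin 23 → ℤ) := hmu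
  have hmw' : m' • w = a' • H.h + b' • v + c' • (y : Fin 23 → ℤ) := hmw
  have g1 := bb_coords hH hyh hyv hmu' hmu'
  have g2 := bb_coords hH hyh hyv hmw' hmw'
  have g3 := bb_coords hH hyh hyv hmu' hmw'
  rw [bb_self, hd, hD2] at g1 g2
  rw [hd, hD2] at g3
  have g4 := three_gram hH u w
  have hG : (3 * (m * m')) ^ 2 * gram H u w = (2 * k * (b * c' - b' * c)) ^ 2 * (3 * c2) := by
    linear_combination (3 * m ^ 2 * m' ^ 2) * g4 + (3 * m' ^ 2 * H.disc w) * g1 +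
      (3 * (b * b * (2 * k ^ 2) + c * c * (2 * c2))) * g2 -
      (3 * (m * m' * bb H u w + (b * b' * (2 * k ^ 2) + c * c' * (2 * c2)))) * g3
  have ht0 : 3 * (m * m') ≠ 0 := mul_ne_zero (by norm_num) (mul_ne_zero hm hm')
  refine ⟨2 * k * (b * c' - b' * c), 3 * (m * m'), ht0, fun hG0 h0 => ?_, by rw [hc2]; exact hG⟩
  rw [h0] at hG
  have : (3 * (m * m')) ^ 2 * gram H u w = 0 := by rw [hG]; ring
  exact (mul_ne_zero (pow_ne_zero 2 ht0) hG0) this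

end Pool.Agent.K9h36.RT
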