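import Pool.Agent.K9h36.RT.Core
import Pool.Agent.N801.CF.Main1

/-!
# Cubic fourfolds with three independent Hodge classes
-/

set_option autoImplicit false

namespace Pool.Agent.K9h36.RT

open Pool.Agent.Y95.Q Pool.Agent.Y95.Q.H4 Pool.Agent.X328.CF Pool.Agent.N801.CF Module

variable {X : CubicFourfold} {H : H4 X}

/-- the determinant of the intersection matrix of `h`, `u`, `w` -/
def gram (H : H4 X) (u w : Fin 23 → ℤ) : ℤ :=
  Matrix.det !![H.ip H.h H.h, H.ip H.h u, H.ip H.h w; H.ip u H.h, H.ip u u, H.ip u w;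
    H.ip w H.h, H.ip w u, H.ip w w]

/-- the polar form of the discriminant -/
def bb (H : H4 X) (u w : Fin 23 → ℤ) : ℤ := 3 * H.ip u w - H.ip H.h u * H.ip H.h w

theorem three_gram (hH : H.IsCohomology) (u w : Fin 23 → ℤ) :
    3 * gram H u w = H.disc u * H.disc w - bb H u w ^ 2 := by
  unfold gram bb disc
  rw [Matrix.det_fin_three]
  simp only [Matrix.of_apply, Matrix.cons_val', Matrix.cons_val_zero, Matrix.cons_val_one,
    Matrix.cons_val, Matrix.cons_val_fin_one]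
  rw [hH.h_self, hH.comm u H.h, hH.comm w H.h, hH.comm w u]
  ring

/-- from a value `2 n² + 2 n + 2` to a saturated class (as in `K9h38/CF/Main.lean`) -/
theorem sat_of_value (hH : H.IsCohomology) {v : Fin 23 → ℤ} (hv : H.IsHodge v) {n : ℤ}
    (h : H.disc v = 2 * n ^ 2 + 2 * n + 2) :
    ∃ d, (∃ a n : ℤ, a ^ 2 * d = 2 * n ^ 2 + 2 * n + 2) ∧
      ∃ w, H.IsHodge w ∧ H.Saturated w ∧ H.disc w = d := by
  have hpos : 0 < H.disc v := by
    rw [h]
    nlinarith [sq_nonneg (2 * n + 1)]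
  obtain ⟨w, m, hm, hw, hsat, hd⟩ := exists_sat hH hv hpos
  exact ⟨H.disc w, ⟨m, n, by rw [← hd, h]⟩, w, hw, hsat, rfl⟩

/-- Addington's condition implies Hassett's (as in `K9h38/CF/Main.lean`) -/
theorem hasK3_of_addington (hH : H.IsCohomology) {w : Fin 23 → ℤ} (hw : H.IsHodge w)
    (hsat : H.Saturated w) {a n : ℤ} (h : a ^ 2 * H.disc w = 2 * n ^ 2 + 2 * n + 2) :
    H.HasK3 := by
  have hw0 : 0 < H.disc w := by
    by_contra hcon
    push Not at hcon
    have h1 : a ^ 2 * H.disc w ≤ 0 := mul_nonpos_of_nonneg_of_nonpos (by positivity) hcon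
    rw [h] at h1
    nlinarith [sq_nonneg (2 * n + 1)]
  exact ⟨w, hw, hsat, hH.six_lt hw hw0, four_not_dvd h, nine_not_dvd h,
    fun p hp hp2 hd => prime_mod h hp hp2 hd⟩

/-- coordinates of a Hodge class in rank three -/
theorem coords (hH : H.IsCohomology) (hr : finrank ℤ H.hodge = 3) {v : Fin 23 → ℤ}
    (hv : H.IsHodge v) {k : ℤ} (hk : k ≠ 0) (hd : H.disc v = 2 * k ^ 2) {y : H.hodge} (hy : y ≠ 0)
    (hyh : H.ip (y : Fin 23 → ℤ) H.h = 0) (hyv : H.ip (y : Fin 23 → ℤ) v = 0) (u : H.hodge) :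
    ∃ m a b c : ℤ, m ≠ 0 ∧
      m • (u : Fin 23 → ℤ) = a • H.h + b • v + c • (y : Fin 23 → ℤ) := by
  have hhy : H.ip H.h (y : Fin 23 → ℤ) = 0 := by rw [hH.comm]; exact hyh
  have hvy : H.ip v (y : Fin 23 → ℤ) = 0 := by rw [hH.comm]; exact hyv
  let h' : H.hodge := ⟨H.h, hH.h_hodge⟩
  let v' : H.hodge := ⟨v, hv⟩
  let w1 : H.hodge := (3 : ℤ) • v' + (-(H.ip H.h v)) • h'
  have hw1 : (w1 : Fin 23 → ℤ) = (3 : ℤ) • v + (-(H.ip H.h v)) • H.h := rfl
  have e01 : H.ip (h' : Fin 23 → ℤ) w1 = 0 := by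
    rw [hw1]
    show H.ip H.h _ = 0
    rw [ip_add_right, ip_smul_right, ip_smul_right, hH.h_self]
    ring
  have e10 : H.ip (w1 : Fin 23 → ℤ) h' = 0 := by
    rw [hH.comm]
    exact e01
  have e12 : H.ip (w1 : Fin 23 → ℤ) y = 0 := by
    rw [hw1, ip_add_left, ip_smul_left, ip_smul_left, hvy, hhy]
    ring
  have e21 : H.ip (y : Fin 23 → ℤ) w1 = 0 := by
    rw [hH.comm]
    exact e12
  have h1 : H.ip (w1 : Fin 23 → ℤ) w1 = 3 * H.disc v := by
    have e : H.ip (w1 : Fin 23 → ℤ) w1 = 3 * H.ip v (w1 : Fin 23 → ℤ) := by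
      conv_lhs => rw [hw1, ip_add_left, ip_smul_left, ip_smul_left]
      have : H.ip H.h (w1 : Fin 23 → ℤ) = 0 := e01
      rw [← hw1, this]
      ring
    rw [e, hw1, ip_add_right, ip_smul_right, ip_smul_right, disc, hH.comm v H.h]
    ring
  have n0 : h' ≠ 0 := by
    intro h
    have : H.ip (h' : Fin 23 → ℤ) h' = 3 := hH.h_self
    rw [h] at this
    simp [ip] at this
  have n1 : w1 ≠ 0 := by
    intro h
    rw [h] at h1
    have h2 : H.ip ((0 : H.hodge) : Fin 23 → ℤ) ((0 : H.hodge) : Fin 23 → ℤ) = 0 := by simp [ip]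
    rw [h2, hd] at h1
    have : k ^ 2 = 0 := by linarith
    exact hk (pow_eq_zero_iff two_ne_zero |>.1 this)
  obtain ⟨m, c, hm, hmc⟩ := dep hH (k := 3) (w := ![h', w1, y]) (by
    intro i
    fin_cases i
    · exact n0
    · exact n1
    · exact hy) (by
    intro i j hij
    fin_cases i <;> fin_cases j
    · exact absurd rfl hij
    · exact e01
    · exact hhy
    · exact e10
    · exact absurd rfl hij
    · exact e12
    · exact hyh
    · exact e21
    · exact absurd rfl hij) hr.symm u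
  refine ⟨m, c 0 - c 1 * H.ip H.h v, 3 * c 1, c 2, hm, ?_⟩
  rw [hmc, Fin.sum_univ_three]
  simp only [Matrix.cons_val_zero, Matrix.cons_val_one, Matrix.cons_val]
  rw [hw1]
  show c 0 • H.h + c 1 • ((3 : ℤ) • v + (-(H.ip H.h v)) • H.h) + c 2 • (y : Fin 23 → ℤ) = _
  module

/-- products in coordinates -/
theorem bb_coords (hH : H.IsCohomology) {v y : Fin 23 → ℤ}
    (hyh : H.ip y H.h = 0) (hyv : H.ip y v = 0) {m a b c m' a' b' c' : ℤ} {u w : Fin 23 → ℤ}
    (hu : m • u = a • H.h + b • v + c • y) (hw : m' • w = a' • H.h + b' • v + c' • y) :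
    m * m' * bb H u w = b * b' * H.disc v + c * c' * H.disc y := by
  have hhy : H.ip H.h y = 0 := by rw [hH.comm]; exact hyh
  have hvy : H.ip v y = 0 := by rw [hH.comm]; exact hyv
  have e1 : m * m' * bb H u w = bb H (m • u) (m' • w) := by
    simp only [bb, ip_smul_left, ip_smul_right]
    ring
  rw [e1, hu, hw]
  simp only [bb, disc, ip_add_left, ip_add_right, ip_smul_left, ip_smul_right, hyh, hyv, hhy, hvy,
    hH.h_self, hH.comm v H.h]
  ring

theorem bb_self (u : Fin 23 → ℤ) : bb H u u = H.disc u := by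
  unfold bb disc
  ring

/-- **Values `2 n² + 2 n + 2` of the discriminant in rank three** -/
theorem value_rank_three (hH : H.IsCohomology) (hr : finrank ℤ H.hodge = 3) {v : Fin 23 → ℤ}
    (hv : H.IsHodge v) {k : ℤ} (hk : k ≠ 0) (hd : H.disc v = 2 * k ^ 2)
    {u w : Fin 23 → ℤ} (hu : H.IsHodge u) (hw : H.IsHodge w) (hG0 : gram H u w ≠ 0)
    (hGm : ∀ m n : ℤ, 1 < m → Squarefree m → m ∣ 2 * k → gram H u w ≠ m * n ^ 2)
    (hloc : ∀ p : ℕ, p.Prime → p % 3 ≠ 1 → (p : ℤ) ∣ 2 * k →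
      ∃ w, H.IsHodge w ∧ AdmissibleAt p (H.disc w)) :
    ∃ (w : Fin 23 → ℤ) (n : ℤ), H.IsHodge w ∧ H.disc w = 2 * n ^ 2 + 2 * n + 2 := by
  obtain ⟨y, hy, ho⟩ := exists_orth (H := H) (k := 2) (by omega) ![H.h, v]
  have hyh : H.ip (y : Fin 23 → ℤ) H.h = 0 := ho 0
  have hyv : H.ip (y : Fin 23 → ℤ) v = 0 := ho 1
  have hD1 : H.disc v ≠ 0 := by
    rw [hd]
    positivity
  have hypos : 0 < H.ip (y : Fin 23 → ℤ) y := hH.pos _ y.2 fun h => hy (Subtype.ext h)
  have hdy := disc_prim hH hyh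
  have hhalf := disc_half hH (y : Fin 23 → ℤ)
  have hf : (hq hH).f ⟨v, hv⟩ = k ^ 2 := by
    rw [hq_f]
    show H.disc v / 2 = k ^ 2
    rw [hd]
    omega
  obtain ⟨c2, hc2⟩ : ∃ c2 : ℤ, (hq hH).f y = c2 := ⟨_, rfl⟩
  have hD2 : H.disc (y : Fin 23 → ℤ) = 2 * c2 := by
    rw [← hc2, hq_f]
    exact hhalf
  have hc2pos : 0 < c2 := by
    rw [hdy] at hD2
    omega
  have hvv : (1 : ℤ) • v = (0 : ℤ) • H.h + (1 : ℤ) • v + (0 : ℤ) • (y : Fin 23 → ℤ) := by simp
  have hyy : (1 : ℤ) • (y : Fin 23 → ℤ) =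
      (0 : ℤ) • H.h + (0 : ℤ) • v + (1 : ℤ) • (y : Fin 23 → ℤ) := by simp
  -- the form is determined by the products with `v` and `y`
  have hid : ∀ z : H.hodge, 4 * k ^ 2 * (hq hH).f y * (hq hH).f z =
      (hq hH).f y * (hq hH).b ⟨v, hv⟩ z ^ 2 + k ^ 2 * (hq hH).b z y ^ 2 := by
    intro z
    obtain ⟨m, a, b, c, hm, hz⟩ := coords hH hr hv hk hd hy hyh hyv z
    have e1 := bb_coords hH hyh hyv hz hz
    have e2 := bb_coords hH hyh hyv hvv hz
    have e3 := bb_coords hH hyh hyv hz hyy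
    rw [bb_self, hd, hD2] at e1
    rw [hd, hD2] at e2 e3
    have e4 : H.disc (z : Fin 23 → ℤ) = 2 * (hq hH).f z := by
      rw [hq_f]
      exact disc_half hH _
    rw [e4] at e1
    have e5 : (hq hH).b ⟨v, hv⟩ z = bb H v z := rfl
    have e6 : (hq hH).b z y = bb H z y := rfl
    rw [e5, e6, hc2]
    apply mul_left_cancel₀ (pow_ne_zero 2 hm)
    linear_combination (2 * k ^ 2 * c2) * e1 - c2 * (m * bb H v z + 2 * k ^ 2 * b) * e2
      - k ^ 2 * (m * bb H z y + 2 * c2 * c) * e3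
  -- the valuation
  obtain ⟨m, a, b, c, hm, hmu⟩ := coords hH hr hv hk hd hy hyh hyv ⟨u, hu⟩
  obtain ⟨m', a', b', c', hm', hmw⟩ := coords hH hr hv hk hd hy hyh hyv ⟨w, hw⟩
  have hmu' : m • u = a • H.h + b • v + c • (y : Fin 23 → ℤ) := hmu
  have hmw' : m' • w = a' • H.h + b' • v + c' • (y : Fin 23 → ℤ) := hmw
  have g1 := bb_coords hH hyh hyv hmu' hmu'
  have g2 := bb_coords hH hyh hyv hmw' hmw'
  have g3 := bb_coords hH hyh hyv hmu' hmw'
  rw [bb_self, hd, hD2] at g1 g2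
  rw [hd, hD2] at g3
  have g4 := three_gram hH u w
  have hG : (3 * (m * m')) ^ 2 * gram H u w = (2 * k * (b * c' - b' * c)) ^ 2 * (3 * c2) := by
    linear_combination (3 * m ^ 2 * m' ^ 2) * g4 + (3 * m' ^ 2 * H.disc w) * g1 +
      (3 * (b * b * (2 * k ^ 2) + c * c * (2 * c2))) * g2 -
      (3 * (m * m' * bb H u w + (b * b' * (2 * k ^ 2) + c * c' * (2 * c2)))) * g3
  have ht0 : 3 * (m * m') ≠ 0 := by
    refine mul_ne_zero (by norm_num) (mul_ne_zero hm hm')
  have h3c : 3 * c2 ≠ 0 := by omega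
  have hs0 : 2 * k * (b * c' - b' * c) ≠ 0 := by
    intro h0
    rw [h0] at hG
    have : (3 * (m * m')) ^ 2 * gram H u w = 0 := by rw [hG]; ring
    exact (mul_ne_zero (pow_ne_zero 2 ht0) hG0) this
  have hGpos : 0 < gram H u w := by
    have h5 : 0 < (3 * (m * m')) ^ 2 * gram H u w := by
      rw [hG]
      positivity
    exact (pos_iff_pos_of_mul_pos h5).1 (by positivity)
  obtain ⟨e, n, hen, hsf⟩ : ∃ (e n : ℕ), gram H u w = e * (n : ℤ) ^ 2 ∧ Squarefree e := by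
    obtain ⟨e, n, h5, h6⟩ := Nat.sq_mul_squarefree (gram H u w).toNat
    refine ⟨e, n, ?_, h6⟩
    have h7 : ((gram H u w).toNat : ℤ) = gram H u w := Int.toNat_of_nonneg hGpos.le
    rw [← h7, ← h5]
    push_cast
    ring
  have hn0 : (n : ℤ) ≠ 0 := by
    intro h5
    rw [h5] at hen
    exact hG0 (by rw [hen]; ring)
  have he0 : (e : ℤ) ≠ 0 := by
    intro h5
    rw [h5] at hen
    exact hG0 (by rw [hen]; ring)
  have hsel : IsSquare (3 * c2) ∨ ∃ (q i : ℕ) (E2 : ℤ), q.Prime ∧ ¬ (q : ℤ) ∣ 2 * k ∧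
      3 * c2 = (q : ℤ) ^ (2 * i + 1) * E2 ∧ ¬ (q : ℤ) ∣ E2 := by
    by_cases he1 : e = 1
    · left
      rw [he1] at hen
      have h5 : (2 * k * (b * c' - b' * c)) ^ 2 ∣ (3 * (m * m') * n) ^ 2 :=
        ⟨3 * c2, by rw [← hG, hen]; push_cast; ring⟩
      obtain ⟨x, hx⟩ := (Int.pow_dvd_pow_iff two_ne_zero).1 h5
      refine ⟨x, ?_⟩
      apply mul_left_cancel₀ (pow_ne_zero 2 hs0)
      rw [← hG, hen]
      push_cast
      linear_combination (3 * (m * m') * n + 2 * k * (b * c' - b' * c) * x) * hx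
    · right
      have he2 : ¬ (e : ℤ) ∣ 2 * k := by
        intro h5
        have h6 : (1 : ℤ) < e := by
          have : e ≠ 0 := by
            intro h7
            exact he0 (by rw [h7]; rfl)
          omega
        exact hGm e n h6 (Int.squarefree_natCast.2 hsf) h5 hen
      obtain ⟨q, hq, hqe, hqk⟩ : ∃ q : ℕ, q.Prime ∧ q ∣ e ∧ ¬ (q : ℤ) ∣ 2 * k := by
        by_contra hcon
        push Not at hcon
        apply he2
        refine Int.natCast_dvd.2 ((Nat.dvd_iff_prime_pow_dvd_dvd _ _).2 fun p j hp hpj => ?_)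
        rcases Nat.lt_or_ge j 2 with hj | hj
        · interval_cases j
          · simp
          · rw [pow_one] at hpj ⊢
            exact Int.natCast_dvd.1 (hcon p hp hpj)
        · exfalso
          have h6 : p * p ∣ e := by
            rw [← pow_two]
            exact (pow_dvd_pow p hj).trans hpj
          exact hp.one_lt.ne' (Nat.isUnit_iff.1 (hsf p h6))
      have : Fact q.Prime := ⟨hq⟩
      have hve : padicValInt q (e : ℤ) = 1 := by
        have h5 : 1 ≤ padicValInt q (e : ℤ) := by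
          rcases (padicValInt_dvd_iff (p := q) 1 (e : ℤ)).1 (by
            rw [pow_one]
            exact_mod_cast hqe) with h | h
          · exact absurd h he0
          · exact h
        have h6 : ¬ 2 ≤ padicValInt q (e : ℤ) := by
          intro h7
          have h8 : (q : ℤ) ^ 2 ∣ (e : ℤ) := (padicValInt_dvd_iff 2 (e : ℤ)).2 (Or.inr h7)
          have h9 : q * q ∣ e := by
            rw [← pow_two]
            exact_mod_cast h8
          exact hq.one_lt.ne' (Nat.isUnit_iff.1 (hsf q h9))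
        omega
      have hval : 2 * padicValInt q (3 * (m * m')) + (1 + 2 * padicValInt q (n : ℤ)) =
          2 * padicValInt q (2 * k * (b * c' - b' * c)) + padicValInt q (3 * c2) := by
        have h := congrArg (padicValInt q) hG
        rw [hen, pow_two, pow_two, pow_two, padicValInt.mul (mul_ne_zero ht0 ht0)
          (mul_ne_zero he0 (mul_ne_zero hn0 hn0)), padicValInt.mul ht0 ht0,
          padicValInt.mul he0 (mul_ne_zero hn0 hn0), padicValInt.mul hn0 hn0, hve,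
          padicValInt.mul (mul_ne_zero hs0 hs0) h3c, padicValInt.mul hs0 hs0] at h
        omega
      obtain ⟨i, hi⟩ : ∃ i, padicValInt q (3 * c2) = 2 * i + 1 :=
        ⟨padicValInt q (3 * c2) / 2, by omega⟩
      obtain ⟨E2, hE2⟩ : (q : ℤ) ^ (2 * i + 1) ∣ 3 * c2 := by
        rw [← hi]
        exact padicValInt_dvd _
      refine ⟨q, i, E2, hq, hqk, hE2, ?_⟩
      rintro ⟨z, hz⟩
      have h5 : (q : ℤ) ^ (2 * i + 1 + 1) ∣ 3 * c2 := ⟨z, by rw [hE2, hz]; ring⟩
      rcases (padicValInt_dvd_iff _ _).1 h5 with h | h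
      · exact h3c h
      · omega
  have h12 : (hq hH).b ⟨v, hv⟩ y = 0 := by
    show 3 * H.ip v (y : Fin 23 → ℤ) - H.ip H.h v * H.ip H.h (y : Fin 23 → ℤ) = 0
    rw [hH.comm v (y : Fin 23 → ℤ), hyv, hH.comm H.h (y : Fin 23 → ℤ), hyh]
    ring
  obtain ⟨x, j, hx⟩ := core_two (hq hH) (v1 := ⟨v, hv⟩) (y2 := y) hk hf h12
    (by rw [hc2]; exact hc2pos.ne') hid
    (fun n0 D hD hDk B => by rw [hc2]; exact sel hsel n0 D hD hDk B)
    (by
      intro p hp hp3 hpd
      obtain ⟨z, hz, hadm⟩ := hloc p hp hp3 hpd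
      exact ⟨⟨z, hz⟩, good_of_adm hH hp hp3 hadm⟩)
  refine ⟨x, j, x.2, ?_⟩
  rw [hq_f] at hx
  have := disc_half hH (x : Fin 23 → ℤ)
  rw [this, hx]
  ring

end Pool.Agent.K9h36.RT
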